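import Pool.Agent.Work.MP_dcf6a6_c1.Interface
import Pool.Agent.Work.MP_dcf6a6_tv_helper33.HOMG

/-!
# Block HFORM (helper20): the binary forms of a solution
-/

open CategoryTheory AlgebraicGeometry Polynomial Topology

namespace Pool.C1.helper20

noncomputable section

namespace HFORM

theorem homogenize_pow (f : ℂ[X]) (c l : ℕ) (hf : f.natDegree ≤ c) :
    (f ^ l).homogenize (l * c) = f.homogenize c ^ l := by
  induction l with
  | zero => rw [pow_zero, pow_zero, zero_mul, homogenize_one, pow_zero]
  | succ l ih =>
    rw [pow_succ, pow_succ, add_mul, one_mul,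
      homogenize_mul _ _ (natDegree_pow_le_of_le l hf) hf, ih]

end HFORM

open HFORM in
theorem stmt_HFORM : Stmt_HFORM := by
  intro J B _ _ _ _ D c d τ u v hS
  constructor
  · intro i j hij p hi hj
    unfold Pool.C1.hev at hi hj
    by_cases hp : p 1 = 0
    · have e : p = ![p 0, 0] := by
        funext k
        fin_cases k
        · rfl
        · exact hp
      have h1 := (Pool.TVar.helper33.stmt_HOMG.1 (τ i) (c i) (hS.deg i).le).2.2 (p 0)
      rw [← e, hi] at h1
      have h2 : (τ i).coeff (c i) ≠ 0 := by
        rw [← hS.deg i]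
        exact leadingCoeff_ne_zero.2 (hS.ne i)
      have h3 : p 0 ^ c i = 0 := (mul_eq_zero.1 h1.symm).resolve_left h2
      have h4 : p 0 = 0 := eq_zero_of_pow_eq_zero h3
      rw [e, h4]
      funext k
      fin_cases k
      · rfl
      · rfl
    · exfalso
      rw [eval_homogenize (hS.deg i).le p hp] at hi
      rw [eval_homogenize (hS.deg j).le p hp] at hj
      have h1 : (τ i).eval (p 0 / p 1) = 0 :=
        (mul_eq_zero.1 hi).resolve_right (pow_ne_zero _ hp)
      have h2 : (τ j).eval (p 0 / p 1) = 0 :=
        (mul_eq_zero.1 hj).resolve_right (pow_ne_zero _ hp)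
      obtain ⟨a, b, hab⟩ := hS.cop i j hij
      have h3 := congrArg (Polynomial.eval (p 0 / p 1)) hab
      rw [eval_add, eval_mul, eval_mul, h1, h2, mul_zero, mul_zero, add_zero, eval_one] at h3
      exact zero_ne_one h3
  · intro b
    have h1 := hS.rel b
    have h2 : (D.uu τ b).homogenize d =
        ∏ j with D.bl j = b, (τ j).homogenize (c j) ^ D.l j := by
      unfold BData.uu
      rw [← hS.bal b, homogenize_finsetProd fun j _ =>
        natDegree_pow_le_of_le (D.l j) (hS.deg j).le]
      exact Finset.prod_congr rfl fun j _ => homogenize_pow _ _ _ (hS.deg j).le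
    rw [← h2, h1, homogenize_add, homogenize_C_mul, homogenize_C_mul]

end

end Pool.C1.helper20
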