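import Pool.Agent.Work.MP_dcf6a6_c1.Interface
import Pool.Agent.Work.MP_dcf6a6_tv_helper54.DEG

/-!
# Block SUB (helper20): composition with a quadratic map of the plane
-/

open CategoryTheory AlgebraicGeometry Polynomial Topology

namespace Pool.C1.helper20

noncomputable section

namespace SUB

/-- the choice of the middle coefficient -/
theorem exists_mid (p₀ p₁ : Fin 2 → ℂ) (h0 : p₀ ≠ 0) : ∃ m : Fin 2 → ℂ,
    ∀ t : ℂ, ¬ (p₀ 0 + m 0 * t + p₁ 0 * t ^ 2 = 0 ∧ p₀ 1 + m 1 * t + p₁ 1 * t ^ 2 = 0) := by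
  by_cases hW : p₀ 0 * p₁ 1 - p₀ 1 * p₁ 0 = 0
  · have key : ∀ m : Fin 2 → ℂ, p₀ 0 * m 1 - p₀ 1 * m 0 ≠ 0 →
        ∀ t : ℂ, ¬ (p₀ 0 + m 0 * t + p₁ 0 * t ^ 2 = 0 ∧ p₀ 1 + m 1 * t + p₁ 1 * t ^ 2 = 0) := by
      rintro m hm t ⟨e0, e1⟩
      have h2 : (p₀ 0 * m 1 - p₀ 1 * m 0) * t = 0 := by
        linear_combination p₀ 0 * e1 - p₀ 1 * e0 - t ^ 2 * hW
      have h3 : t = 0 := (mul_eq_zero.1 h2).resolve_left hm
      subst h3
      apply h0
      funext i
      fin_cases i
      · show p₀ 0 = 0
        linear_combination e0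
      · show p₀ 1 = 0
        linear_combination e1
    by_cases h00 : p₀ 0 = 0
    · have h01 : p₀ 1 ≠ 0 := by
        intro h01
        apply h0
        funext i
        fin_cases i
        · exact h00
        · exact h01
      exact ⟨![1, 0], key _ (by simpa using h01)⟩
    · exact ⟨![0, 1], key _ (by simpa using h00)⟩
  · refine ⟨0, ?_⟩
    rintro t ⟨e0, e1⟩
    apply hW
    simp only [Pi.zero_apply, zero_mul, add_zero] at e0 e1
    linear_combination p₁ 1 * e0 - p₁ 0 * e1

/-- evaluation of the composition -/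
theorem eval_aeval (h : Fin 2 → ℂ[X]) (F : MvPolynomial (Fin 2) ℂ) (t : ℂ) :
    (MvPolynomial.aeval h F).eval t = MvPolynomial.eval (fun i => (h i).eval t) F := by
  induction F using MvPolynomial.induction_on with
  | C a => simp
  | add p q hp hq => simp only [map_add, Polynomial.eval_add, hp, hq]
  | mul_X p n hp =>
    simp only [map_mul, Polynomial.eval_mul, hp, MvPolynomial.aeval_X, MvPolynomial.eval_X]

end SUB

open SUB in
theorem stmt_SUB (hH : Stmt_HFORM) : Stmt_SUB := by
  intro J B _ _ _ _ D c d τ u v p₀ p₁ hS h0 h1 hv0 hv1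
  obtain ⟨H1, H2⟩ := hH D c d τ u v hS
  obtain ⟨m, hm⟩ := exists_mid p₀ p₁ h0
  set h : Fin 2 → ℂ[X] := fun i => C (p₀ i) + C (m i) * X + C (p₁ i) * X ^ 2 with hh
  have hdeg : ∀ i, (h i).natDegree ≤ 2 * 1 := by
    intro i
    rw [hh]
    dsimp only
    compute_degree
  have hc0 : ∀ i, (h i).coeff 0 = p₀ i := by
    intro i
    rw [hh]
    simp
  have hc2 : ∀ i, (h i).coeff (2 * 1) = p₁ i := by
    intro i
    rw [hh]
    simp
  have hev : ∀ i t, (h i).eval t = p₀ i + m i * t + p₁ i * t ^ 2 := by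
    intro i t
    rw [hh]
    simp
  have hT : ∀ (f : ℂ[X]) (n : ℕ), (MvPolynomial.aeval h (f.homogenize n)).natDegree ≤ 2 * n ∧
      (MvPolynomial.aeval h (f.homogenize n)).coeff (2 * n) =
        MvPolynomial.eval p₁ (f.homogenize n) ∧
      (MvPolynomial.aeval h (f.homogenize n)).coeff 0 =
        MvPolynomial.eval p₀ (f.homogenize n) := by
    intro f n
    have hw : (f.homogenize n).IsWeightedHomogeneous (fun _ : Fin 2 => 1) n :=
      isHomogeneous_homogenize f
    obtain ⟨k1, k2, k3⟩ := Pool.TVar.helper54.stmt_DEG (fun _ : Fin 2 => 1) (f.homogenize n) n 2 h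
      hw hdeg
    refine ⟨k1, ?_, ?_⟩
    · rw [k2]
      have e : (fun k : Fin 2 => (h k).coeff (2 * 1)) = p₁ := funext hc2
      rw [e]
      rfl
    · rw [k3]
      have e : (fun k : Fin 2 => (h k).coeff 0) = p₀ := funext hc0
      rw [e]
      rfl
  have hlead : ∀ j, (MvPolynomial.aeval h ((τ j).homogenize (c j))).coeff (2 * c j) =
      Pool.C1.hev c τ p₁ j := fun j => (hT _ _).2.1
  have hdg : ∀ j, (MvPolynomial.aeval h ((τ j).homogenize (c j))).natDegree = 2 * c j := by
    intro j
    apply le_antisymm (hT _ _).1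
    apply le_natDegree_of_ne_zero
    rw [hlead j]
    exact hv1 j
  refine ⟨fun j => MvPolynomial.aeval h ((τ j).homogenize (c j)),
    MvPolynomial.aeval h (u.homogenize d), MvPolynomial.aeval h (v.homogenize d), ?_, ?_⟩
  · refine ⟨hdg, ?_, ?_, ?_, ?_⟩
    · intro j hj
      have := hlead j
      rw [hj, coeff_zero] at this
      exact hv1 j this.symm
    · intro b
      rw [← hS.bal b, Finset.mul_sum]
      exact Finset.sum_congr rfl fun j _ => by ring
    · intro b
      have e := congrArg (MvPolynomial.aeval h) (H2 b)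
      rw [map_prod, map_add, map_mul, map_mul] at e
      have e' : D.uu (fun j => MvPolynomial.aeval h ((τ j).homogenize (c j))) b =
          ∏ j with D.bl j = b, MvPolynomial.aeval h ((τ j).homogenize (c j) ^ D.l j) := by
        unfold BData.uu
        exact Finset.prod_congr rfl fun j _ => (map_pow _ _ _).symm
      rw [e', e]
      congr 1
      · congr 1
        exact MvPolynomial.aeval_C _ _
      · congr 1
        exact MvPolynomial.aeval_C _ _
    · intro i j hij
      rw [Polynomial.isCoprime_iff_aeval_ne_zero_of_isAlgClosed ℂ ℂ]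
      intro t
      by_contra hcon
      push Not at hcon
      obtain ⟨c1, c2⟩ := hcon
      rw [Polynomial.coe_aeval_eq_eval, eval_aeval] at c1 c2
      have e := H1 i j hij _ c1 c2
      apply hm t
      constructor
      · rw [← hev 0 t]
        exact congrFun e 0
      · rw [← hev 1 t]
        exact congrFun e 1
  · intro j
    refine ⟨(hT _ _).2.2, ?_⟩
    show (MvPolynomial.aeval h ((τ j).homogenize (c j))).coeff
      (MvPolynomial.aeval h ((τ j).homogenize (c j))).natDegree = _
    rw [hdg j]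
    exact hlead j

end

end Pool.C1.helper20
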